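import Pool.Agent.Q31.GLW.Stm

/-! Project GLW (MP_2f8bd9_al), job PATH. -/

set_option autoImplicit false

namespace Pool.Agent.Q181.GLW

open Module Submodule Pool.Agent.Q31.GLW

variable {F V : Type} [Field F] [AddCommGroup V] [Module F V]

theorem L2 (B Z : Submodule F V) (s z w : V) (hB : B ≤ Z) (hs : s ∈ Z) (hsB : s ∉ B)
    (h : ∀ a b : F, a • z + b • w ∈ Z → a = 0 ∧ b = 0) : s ∉ B ⊔ span F {z} ⊔ span F {w} := by
  intro hm
  obtain ⟨x, hx, y, hy, hxy⟩ := mem_sup.mp hm
  obtain ⟨x', hx', y', hy', hxy'⟩ := mem_sup.mp hx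
  obtain ⟨t, rfl⟩ := mem_span_singleton.mp hy
  obtain ⟨r, rfl⟩ := mem_span_singleton.mp hy'
  have h1 : r • z + t • w ∈ Z := by
    have h2 : r • z + t • w = s - x' := by
      rw [← hxy, ← hxy']; abel
    rw [h2]
    exact Z.sub_mem hs (hB hx')
  obtain ⟨hr, ht⟩ := h r t h1
  apply hsB
  rw [← hxy, ← hxy', hr, ht, zero_smul, zero_smul, add_zero, add_zero]
  exact hx'

theorem L1 (B Z : Submodule F V) (s w : V) (hB : B ≤ Z) (hs : s ∈ Z) (hsB : s ∉ B)
    (h : ∀ t : F, t • w ∈ Z → t = 0) : s ∉ B ⊔ span F {w} := by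
  intro hm
  obtain ⟨x, hx, y, hy, hxy⟩ := mem_sup.mp hm
  obtain ⟨t, rfl⟩ := mem_span_singleton.mp hy
  have h1 : t • w ∈ Z := by
    have h2 : t • w = s - x := by
      rw [← hxy]; abel
    rw [h2]
    exact Z.sub_mem hs (hB hx)
  have ht := h t h1
  apply hsB
  rw [← hxy, ht, zero_smul, add_zero]
  exact hx

theorem ext_mono {p q : V →ₗ.[F] V} (hpq : p ≤ q) {h : V ≃ₗ[F] V} (hq : Ext q h) : Ext p h := by
  intro x
  have h1 := hq ⟨x, hpq.1 x.2⟩
  rw [h1]
  exact (hpq.2 rfl).symm

theorem t_PATH (hIND : S_IND) (hADD : S_ADD) (hICS : S_ICS) : S_PATH := by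
  intro F V _ _ _ U g hU M
  induction M with
  | nil =>
    intro k e p a s _ _ hC ha hs _
    obtain ⟨q, hqC, hpq, -, -, hq⟩ := hADD F V U g p e a s hC ha hs
    refine ⟨q, hqC, hpq, fun h hh => ?_⟩
    change act h e a = s
    exact hq h hh
  | cons b M ih =>
    intro k e p a s hP hR hC ha hs hes
    obtain ⟨hR1, hR2⟩ : (b.2 = e ∨ ¬ Sc b.1) ∧ Rd (b :: M) := hR
    change s ∉ side p (!(lastE b.2 M)) at hs
    change e = lastE b.2 M ∨ s ∉ side p (!(lastE b.2 M)) ⊔ span F {a} at hes
    set e₁ : Bool := lastE b.2 M with he₁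
    set Z : Submodule F V := side p true ⊔ side p false ⊔ (span F {a} ⊔ span F {s}) with hZ
    have hfd : FiniteDimensional F ↥(span F {a} ⊔ span F {s}) := inferInstance
    have hZIC : IC Z := hICS F V U g p _ hU hC hfd
    have hsideZ : ∀ e : Bool, side p e ≤ Z := by
      intro e
      cases e
      · exact le_sup_of_le_left le_sup_right
      · exact le_sup_of_le_left le_sup_left
    have haZ : span F {a} ≤ Z := le_sup_of_le_right le_sup_left
    have hsZ' : span F {s} ≤ Z := le_sup_of_le_right le_sup_right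
    have hsZ : s ∈ Z := hsZ' (mem_span_singleton_self s)
    -- the choice of `z`
    obtain ⟨z, hz1, hz2⟩ : ∃ z : V, (∀ t : F, t • z ∈ Z → t = 0) ∧
        ((b.2 = e ∧ ∃ c : F, c ≠ 0 ∧ b.1 z = c • z) ∨
          ∀ α β : F, α • z + β • b.1 z ∈ Z → α = 0 ∧ β = 0) := by
      by_cases hSc : Sc b.1
      · have hbe : b.2 = e := hR1.resolve_right (fun h => h hSc)
        have hne : Z ≠ ⊤ := by
          intro h
          apply hZIC
          rw [h]
          infer_instance
        obtain ⟨z, -, hz⟩ := SetLike.exists_of_lt (lt_top_iff_ne_top.mpr hne)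
        refine ⟨z, ?_, Or.inl ⟨hbe, ?_⟩⟩
        · intro t ht
          by_contra h0
          exact hz ((Submodule.smul_mem_iff _ h0).mp ht)
        · obtain ⟨c, hc⟩ := hSc
          refine ⟨c, ?_, hc z⟩
          intro h0
          have h1 := hc z
          rw [h0, zero_smul] at h1
          have h2 : z = 0 := by
            rw [← map_zero b.1] at h1
            exact b.1.injective h1
          exact hz (h2 ▸ Z.zero_mem)
      · obtain ⟨z, hz⟩ := hIND F V b.1 Z hSc (hP b List.mem_cons_self) hZIC
        refine ⟨z, ?_, Or.inr hz⟩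
        intro t ht
        exact (hz t 0 (by rw [zero_smul, add_zero]; exact ht)).1
    have hzZ : z ∉ Z := fun h => one_ne_zero (hz1 1 (by rwa [one_smul]))
    obtain ⟨q, hqC, hpq, hq1, hq2, hq⟩ := hADD F V U g p e a z hC ha
      (fun h => hzZ (hsideZ _ h))
    -- the image of `z` is not in `Z`
    have hz3 : ∀ t : F, t • b.1 z ∈ Z → t = 0 := by
      rcases hz2 with ⟨-, c, hc0, hc⟩ | h
      · intro t ht
        rw [hc, smul_smul] at ht
        rcases mul_eq_zero.mp (hz1 _ ht) with h | h
        · exact h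
        · exact absurd h hc0
      · intro t ht
        exact (h 0 t (by rw [zero_smul, zero_add]; exact ht)).2
    have hbz : b.1 z ∉ Z := fun h => one_ne_zero (hz3 1 (by rwa [one_smul]))
    have hqe : side q e ≤ Z := by
      rw [hq1]
      exact sup_le (hsideZ _) haZ
    have hcase : e = e₁ ∨ e₁ = !e := by
      cases e <;> cases e₁ <;> simp
    -- hypotheses for the next step
    have H1 : b.1 z ∉ side q b.2 := by
      by_cases hbe : b.2 = e
      · rw [hbe]
        exact fun h => hbz (hqe h)
      · have hbe' : b.2 = !e := by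
          revert hbe
          cases b.2 <;> cases e <;> simp
        rcases hz2 with ⟨h, -⟩ | h
        · exact absurd h hbe
        · rw [hbe', hq2]
          intro hm
          obtain ⟨x, hx, y, hy, hxy⟩ := mem_sup.mp hm
          obtain ⟨t, rfl⟩ := mem_span_singleton.mp hy
          have h1 : (-t) • z + (1 : F) • b.1 z ∈ Z := by
            have h2 : (-t) • z + (1 : F) • b.1 z = x := by
              rw [← hxy, neg_smul, one_smul]; abel
            rw [h2]
            exact hsideZ _ hx
          exact one_ne_zero (h _ _ h1).2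
    have H2 : s ∉ side q (!e₁) := by
      rcases hcase with h | h
      · rw [← h, hq2]
        rw [← h] at hs
        exact L1 _ Z s z (hsideZ _) hsZ hs hz1
      · have h3 : (!e₁) = e := by rw [h, Bool.not_not]
        rw [h3, hq1]
        rcases hes with h4 | h4
        · exfalso
          rw [h4] at h
          revert h
          cases e₁ <;> simp
        · rwa [h3] at h4
    have H3 : b.2 = e₁ ∨ s ∉ side q (!e₁) ⊔ span F {b.1 z} := by
      by_cases hbe : b.2 = e₁
      · exact Or.inl hbe
      · right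
        rcases hcase with h | h
        · rcases hz2 with ⟨h5, -⟩ | h5
          · exact absurd (h5.trans h) hbe
          · rw [← h, hq2]
            rw [← h] at hs
            exact L2 _ Z s z _ (hsideZ _) hsZ hs h5
        · have h3 : (!e₁) = e := by rw [h, Bool.not_not]
          rw [h3] at H2 ⊢
          exact L1 _ Z s _ hqe hsZ H2 hz3
    obtain ⟨q', hq'C, hqq', hq'⟩ := ih b.1 b.2 q (b.1 z) s
      (fun x hx => hP x (List.mem_cons_of_mem _ hx)) hR2 hqC H1 H2 H3
    refine ⟨q', hq'C, hpq.trans hqq', fun h hh => ?_⟩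
    have h1 := hq h (ext_mono hqq' hh)
    have h2 := hq' h hh
    change (ev h M * (act h b.2 * b.1)) (act h e a) = s
    rw [h1]
    exact h2

end Pool.Agent.Q181.GLW
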